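import Pool.Agent.Q290.FW.CrossN3

/-!
# Furtwaengler's theorem over number fields, in the first and in the second case

Let `K` be a number field of degree `m`, `p ≥ 5` a prime with `p > 2 m`, and `q` any prime number with
`q ^ (p - 1)` not congruent to `1` modulo `p ^ 2`. Let `x ^ n + y ^ n = z ^ n` over `K`, where `p`
divides `n`. At each prime `v` above `p` the three numbers have the same valuation, or one of them is
more divisible by `v` than the other two.

(A) First case: the three numbers have the same valuation at each prime above `p`. Let either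
`2 m + 3 ≤ p` and `p` not divide `B (p - 3), B (p - 5), ..., B (p - 2 m + 1)`, or
`m (i + 1) (i + 2) + 3 ≤ p`, where `i` is the index of irregularity of `p`. Then none of `x, y, z` is
divisible by all the primes above `q` (after scaling locally); so `q` does not divide `x y z` if there
is only one prime of `K` above `q`. If the residue fields of the primes above `q` contain no `p`-th
roots of unity except `1`, and each of these primes divides one of `x, y, z`, then `3` divides `m` and
each of `x, y, z` is divisible by one of these primes.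

(B) Let `a`, one of `x, y, z`, be more divisible than the other two, `b` and `c`, at all primes above
`p`. Then `b` is not more divisible than `a` at all primes above `q`. If the residue fields of the
primes above `q` contain no `p`-th roots of unity except `1`, and each of these primes divides one of
`x, y, z` (after scaling), then `a` is more divisible than `b` and `c` at all primes above `q`.

(C) Let no prime above `p` be in the first case. If `a` is more divisible than `b` and `c` at all primes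
above `q`, then at all primes above `p`. So if there is only one prime above `q`, and it divides one of
the three numbers, then the same number is divisible by ALL primes above `p`.

For `m = 1` this is the first theorem of Furtwaengler (1912). There is no condition on the class group,
the units, the ramification or the real places of `K`, and none on Bernoulli numbers in (B), (C).

Proof. Let `X ^ p + Y ^ p + Z ^ p = 0` be the scaled solution. The norm `f (ζ)` of `X + ζ Y` to the
field of `p`-th roots of unity is a rational number times the `p`-th power of an ideal, also if `Z` is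
divisible by primes above `p` (`ideA`). There is an `a` with `(1 + a) ^ p - 1 - a ^ p` not divisible by
`p ^ 2`, and the relation of Stickelberger for `J (χ, χ ^ a)` makes a product of conjugates of `f (ζ)`,
divided by the power of `1 - ζ` contained in it, equal to a root of unity times a `p`-th power. If at
each prime above `q` one of `X`, `Y`, `X + Y` vanishes, then `f` is modulo `q`, up to sign and a shift by
the difference of the numbers of conjugates of `X` and `Y` which vanish modulo a prime above `q`, a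
palindromic polynomial; so the root of unity is determined modulo `q`. In the first case the relations
of all Jacobi sums modulo `p` give `T ^ m f (T) = T ^ (m + a - b) T ^ m f (1 / T)` modulo `p` to a high
order at `T = 1`, hence exactly, which forces `a = b`. If each prime above `p` divides one of `X, Y, Z`,
then `f` is modulo `p` a power of `T` times a power of `1 - T`, and the first order terms at `T = 1`
show that the difference of the numbers of conjugates of `X` and `Y` which vanish modulo a prime above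
`q` is the same as modulo a prime above `p`.
-/

set_option autoImplicit false

namespace Pool.Agent.Results.MP_ef6a16_nt.FurtwaenglerNumberFields

open NumberField IsDedekindDomain

/-- The even numbers `k` with `2 ≤ k ≤ p - 3` for which `p` divides the numerator of the Bernoulli
number with index `k`. Their number is the index of irregularity of `p`. -/
def Irregular (p : ℕ) : Finset ℕ :=
  (Finset.range p).filter fun k => Even k ∧ 2 ≤ k ∧ k + 3 ≤ p ∧ (p : ℤ) ∣ (bernoulli k).num

/-- `x, y, z` have the same valuation at `v`. -/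
def Same {K : Type} [Field K] [NumberField K] (v : HeightOneSpectrum (𝓞 K)) (x y z : K) : Prop :=
  v.valuation K x = v.valuation K y ∧ v.valuation K y = v.valuation K z

/-- `a` is more divisible by `v` than `b` and `c` (the valuation is multiplicative). -/
def More {K : Type} [Field K] [NumberField K] (v : HeightOneSpectrum (𝓞 K)) (a b c : K) : Prop :=
  v.valuation K a < v.valuation K b ∧ v.valuation K a < v.valuation K c

/-- `(a, b, c)` is `(x, y, z)`, `(y, z, x)` or `(z, x, y)`. -/
def Rotation {K : Type} (x y z a b c : K) : Prop :=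
  (a = x ∧ b = y ∧ c = z) ∨ (a = y ∧ b = z ∧ c = x) ∨ (a = z ∧ b = x ∧ c = y)

theorem result (K : Type) [Field K] [NumberField K] (m : ℕ) (hK : Module.finrank ℚ K = m)
    (p n q : ℕ) (hp : p.Prime) (h5 : 5 ≤ p) (hpm : 2 * m < p) (hq : q.Prime)
    (hW : ¬ p ^ 2 ∣ q ^ (p - 1) - 1)
    (hn : p ∣ n) (x y z : K) (h : x ^ n + y ^ n = z ^ n) (hx : x ≠ 0) (hy : y ≠ 0) (hz : z ≠ 0) :
    -- (A) the first case
    (((2 * m + 3 ≤ p ∧ ∀ k ∈ Irregular p, k + 2 * m < p) ∨
        m * (((Irregular p).card + 1) * ((Irregular p).card + 2)) + 3 ≤ p) →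
      (∀ v : HeightOneSpectrum (𝓞 K), ((p : ℕ) : 𝓞 K) ∈ v.asIdeal → Same v x y z) →
      ((∃ v : HeightOneSpectrum (𝓞 K), ((q : ℕ) : 𝓞 K) ∈ v.asIdeal ∧
          v.valuation K y ≤ v.valuation K x) ∧
        (∃ v : HeightOneSpectrum (𝓞 K), ((q : ℕ) : 𝓞 K) ∈ v.asIdeal ∧
          v.valuation K z ≤ v.valuation K y) ∧
        (∃ v : HeightOneSpectrum (𝓞 K), ((q : ℕ) : 𝓞 K) ∈ v.asIdeal ∧
          v.valuation K x ≤ v.valuation K z)) ∧
      ((∀ P : Ideal (𝓞 K), P.IsPrime → ((q : ℕ) : 𝓞 K) ∈ P → Nat.card (𝓞 K ⧸ P) % p ≠ 1) →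
        (∀ v : HeightOneSpectrum (𝓞 K), ((q : ℕ) : 𝓞 K) ∈ v.asIdeal → ¬ Same v x y z) →
        3 ∣ m ∧
        (∃ v : HeightOneSpectrum (𝓞 K), ((q : ℕ) : 𝓞 K) ∈ v.asIdeal ∧
          v.valuation K x < v.valuation K y) ∧
        (∃ v : HeightOneSpectrum (𝓞 K), ((q : ℕ) : 𝓞 K) ∈ v.asIdeal ∧
          v.valuation K y < v.valuation K z) ∧
        (∃ v : HeightOneSpectrum (𝓞 K), ((q : ℕ) : 𝓞 K) ∈ v.asIdeal ∧
          v.valuation K z < v.valuation K x))) ∧
    ∀ a b c : K, Rotation x y z a b c →
      -- (B) from the primes above `p` to the primes above `q`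
      ((∀ v : HeightOneSpectrum (𝓞 K), ((p : ℕ) : 𝓞 K) ∈ v.asIdeal → More v a b c) →
        (∃ w : HeightOneSpectrum (𝓞 K), ((q : ℕ) : 𝓞 K) ∈ w.asIdeal ∧
          w.valuation K a ≤ w.valuation K b) ∧
        (∃ w : HeightOneSpectrum (𝓞 K), ((q : ℕ) : 𝓞 K) ∈ w.asIdeal ∧
          w.valuation K a ≤ w.valuation K c) ∧
        ((∀ P : Ideal (𝓞 K), P.IsPrime → ((q : ℕ) : 𝓞 K) ∈ P → Nat.card (𝓞 K ⧸ P) % p ≠ 1) →
          (∀ w : HeightOneSpectrum (𝓞 K), ((q : ℕ) : 𝓞 K) ∈ w.asIdeal → ¬ Same w x y z) →
          ∀ w : HeightOneSpectrum (𝓞 K), ((q : ℕ) : 𝓞 K) ∈ w.asIdeal → More w a b c)) ∧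
      -- (C) from the primes above `q` to the primes above `p`
      ((∀ v : HeightOneSpectrum (𝓞 K), ((p : ℕ) : 𝓞 K) ∈ v.asIdeal → ¬ Same v x y z) →
        (∀ w : HeightOneSpectrum (𝓞 K), ((q : ℕ) : 𝓞 K) ∈ w.asIdeal → More w a b c) →
        ∀ v : HeightOneSpectrum (𝓞 K), ((p : ℕ) : 𝓞 K) ∈ v.asIdeal → More v a b c) := by
  subst hK
  obtain ⟨k, rfl⟩ := hn
  have hk : k ≠ 0 := by
    rintro rfl
    simp at h
  have hodd : Odd p := hp.odd_of_ne_two (by omega)
  have hF : (x ^ k) ^ p + (y ^ k) ^ p + (-z ^ k) ^ p = 0 := by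
    rw [hodd.neg_pow, ← pow_mul, ← pow_mul, ← pow_mul, mul_comm k p, h]
    ring
  have hx' := pow_ne_zero k hx
  have hy' := pow_ne_zero k hy
  have hz' := neg_ne_zero.2 (pow_ne_zero k hz)
  constructor
  · intro hB hv
    have hF2 : (y ^ k) ^ p + (-z ^ k) ^ p + (x ^ k) ^ p = 0 := by rw [← hF]; ring
    have hF3 : (-z ^ k) ^ p + (x ^ k) ^ p + (y ^ k) ^ p = 0 := by rw [← hF]; ring
    have g : ∀ v : HeightOneSpectrum (𝓞 K), ((p : ℕ) : 𝓞 K) ∈ v.asIdeal →
        v.valuation K (x ^ k) = v.valuation K (y ^ k) ∧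
          v.valuation K (y ^ k) = v.valuation K (-z ^ k) := by
      intro v hpv
      obtain ⟨h1, h2⟩ := hv v hpv
      rw [Valuation.map_neg, map_pow, map_pow, map_pow, h1, h2]
      exact ⟨rfl, rfl⟩
    have hle : ∀ (v : HeightOneSpectrum (𝓞 K)) (a b : K),
        v.valuation K (a ^ k) ≤ v.valuation K (b ^ k) → v.valuation K a ≤ v.valuation K b := by
      intro v a b hab
      rw [map_pow, map_pow] at hab
      exact (pow_le_pow_iff_left₀ zero_le' zero_le' hk).1 hab
    have hlt : ∀ (v : HeightOneSpectrum (𝓞 K)) (a b : K),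
        v.valuation K (a ^ k) < v.valuation K (b ^ k) → v.valuation K a < v.valuation K b := by
      intro v a b hab
      rw [map_pow, map_pow] at hab
      exact (pow_lt_pow_iff_left₀ zero_le' zero_le' hk).1 hab
    have heq : ∀ (v : HeightOneSpectrum (𝓞 K)) (a b : K),
        v.valuation K (a ^ k) = v.valuation K (b ^ k) → v.valuation K a = v.valuation K b :=
      fun v a b hab => le_antisymm (hle v a b hab.le) (hle v b a hab.ge)
    obtain ⟨⟨v1, q1, e1⟩, r1⟩ := Q290.FW.furtK hp hq hB hW hx' hy' hz' hF g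
    obtain ⟨⟨v2, q2, e2⟩, r2⟩ := Q290.FW.furtK hp hq hB hW hy' hz' hx' hF2
      fun v hpv => ⟨(g v hpv).2, ((g v hpv).1.trans (g v hpv).2).symm⟩
    obtain ⟨⟨v3, q3, e3⟩, r3⟩ := Q290.FW.furtK hp hq hB hW hz' hx' hy' hF3
      fun v hpv => ⟨((g v hpv).1.trans (g v hpv).2).symm, (g v hpv).1⟩
    rw [Valuation.map_neg] at e2 e3
    refine ⟨⟨⟨v1, q1, hle _ _ _ e1⟩, ⟨v2, q2, hle _ _ _ e2⟩, ⟨v3, q3, hle _ _ _ e3⟩⟩, ?_⟩
    intro hres hno
    obtain ⟨h3, w1, a1, b1⟩ := r1 hres fun v qv hh => by
      rw [Valuation.map_neg] at hh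
      exact hno v qv ⟨heq _ _ _ hh.1, heq _ _ _ hh.2⟩
    obtain ⟨-, w2, a2, b2⟩ := r2 hres fun v qv hh => by
      rw [Valuation.map_neg] at hh
      exact hno v qv ⟨(heq _ _ _ (hh.1.trans hh.2)).symm, heq _ _ _ hh.1⟩
    obtain ⟨-, w3, a3, b3⟩ := r3 hres fun v qv hh => by
      rw [Valuation.map_neg] at hh
      exact hno v qv ⟨heq _ _ _ hh.2, (heq _ _ _ (hh.1.trans hh.2)).symm⟩
    rw [Valuation.map_neg] at b2 b3
    exact ⟨h3, ⟨w1, a1, hlt _ _ _ b1⟩, ⟨w2, a2, hlt _ _ _ b2⟩, ⟨w3, a3, hlt _ _ _ b3⟩⟩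
  · intro a b c hR
    have hlt : ∀ r s : WithZero (Multiplicative ℤ), r ^ k < s ^ k ↔ r < s := fun r s =>
      pow_lt_pow_iff_left₀ zero_le' zero_le' hk
    have hle : ∀ r s : WithZero (Multiplicative ℤ), r ^ k ≤ s ^ k ↔ r ≤ s := fun r s =>
      pow_le_pow_iff_left₀ zero_le' zero_le' hk
    have heq : ∀ r s : WithZero (Multiplicative ℤ), r ^ k = s ^ k ↔ r = s := fun r s =>
      pow_left_inj₀ zero_le' zero_le' hk
    obtain ⟨A, B, C, hA, hB, hC, hABC, hv⟩ : ∃ A B C : K, A ≠ 0 ∧ B ≠ 0 ∧ C ≠ 0 ∧
        A ^ p + B ^ p + C ^ p = 0 ∧ ∀ v : HeightOneSpectrum (𝓞 K),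
          v.valuation K A = v.valuation K a ^ k ∧ v.valuation K B = v.valuation K b ^ k ∧
          v.valuation K C = v.valuation K c ^ k := by
      rcases hR with ⟨rfl, rfl, rfl⟩ | ⟨rfl, rfl, rfl⟩ | ⟨rfl, rfl, rfl⟩
      · exact ⟨_, _, _, hx', hy', hz', hF, fun v => ⟨map_pow _ _ _, map_pow _ _ _,
          by rw [Valuation.map_neg, map_pow]⟩⟩
      · exact ⟨_, _, _, hy', hz', hx', by rw [← hF]; ring, fun v => ⟨map_pow _ _ _,
          by rw [Valuation.map_neg, map_pow], map_pow _ _ _⟩⟩
      · exact ⟨_, _, _, hz', hx', hy', by rw [← hF]; ring, fun v =>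
          ⟨by rw [Valuation.map_neg, map_pow], map_pow _ _ _, map_pow _ _ _⟩⟩
    have hsame : ∀ v : HeightOneSpectrum (𝓞 K),
        (v.valuation K A = v.valuation K B ∧ v.valuation K B = v.valuation K C) →
          Same v x y z := by
      intro v hh
      obtain ⟨e1, e2, e3⟩ := hv v
      rw [e1, e2, e3, heq, heq] at hh
      obtain ⟨f1, f2⟩ := hh
      rcases hR with ⟨rfl, rfl, rfl⟩ | ⟨rfl, rfl, rfl⟩ | ⟨rfl, rfl, rfl⟩
      · exact ⟨f1, f2⟩
      · exact ⟨(f1.trans f2).symm, f1⟩
      · exact ⟨f2, (f1.trans f2).symm⟩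
    constructor
    · intro hall
      have m1 : ∀ v : HeightOneSpectrum (𝓞 K), ((p : ℕ) : 𝓞 K) ∈ v.asIdeal →
          v.valuation K A < v.valuation K B ∧ v.valuation K A < v.valuation K C := by
        intro v hpv
        obtain ⟨e1, e2, e3⟩ := hv v
        rw [e1, e2, e3, hlt, hlt]
        exact hall v hpv
      obtain ⟨⟨w, hw, k1⟩, k2⟩ := Q290.FW.secNK hp hpm hq hW hB hC hA (by rw [← hABC]; ring) m1
      obtain ⟨⟨w', hw', k3⟩, -⟩ := Q290.FW.secNK hp hpm hq hW hC hB hA (by rw [← hABC]; ring)
        fun v hpv => (m1 v hpv).symm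
      refine ⟨⟨w, hw, ?_⟩, ⟨w', hw', ?_⟩, ?_⟩
      · obtain ⟨e1, e2, e3⟩ := hv w
        rw [e1, e2, hle] at k1
        exact k1
      · obtain ⟨e1, e2, e3⟩ := hv w'
        rw [e1, e3, hle] at k3
        exact k3
      · intro hres hno u hu
        have h1 := k2 hres (fun v hqv hh => hno v hqv (hsame v
          ⟨(hh.1.trans hh.2).symm, hh.1⟩)) u hu
        obtain ⟨e1, e2, e3⟩ := hv u
        rw [e1, e2, e3, hlt, hlt] at h1
        exact h1
    · intro hno hall v hpv
      have h1 := Q290.FW.backK hp h5 hpm hq hW hA hB hC hABC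
        (fun v hpv hh => hno v hpv (hsame v hh)) (fun w hqw => by
          obtain ⟨e1, e2, e3⟩ := hv w
          rw [e1, e2, e3, hlt, hlt]
          exact hall w hqw) v hpv
      obtain ⟨e1, e2, e3⟩ := hv v
      rw [e1, e2, e3, hlt, hlt] at h1
      exact h1

end Pool.Agent.Results.MP_ef6a16_nt.FurtwaenglerNumberFields
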