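import Pool.Agent.Q290.FW.KE

/-!
# The criterion of Kummer and Eichler over number fields

Let `K` be a number field of degree `m`, and let `p` be a prime such that either `2 m + 3 ≤ p` and
`p` does not divide `B (p - 3), B (p - 5), ..., B (p - 2 m - 1)`, or `m (i + 1) (i + 2) + 3 ≤ p`,
where `i` is the index of irregularity of `p`. Then the first case of Fermat's Last Theorem holds
over `K` for all exponents divisible by `p` if

* `m` is odd and at most two primes of `K` lie above `p`, or
* `m` is prime to three and no prime of `K` above `p` has norm congruent to `1` modulo three, or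
* only one prime of `K` lies above `p`, and `p` is congruent to `1` modulo three or the norm of this
  prime is not congruent to `1` modulo three.

There is no condition on the class group, the units, the ramification or the real places of `K`, and
none of Wieferich type. If `K` contains a primitive cube root of unity `ω` then
`1 + ω ^ p + ω ^ (2 p) = 0`, so some conditions on `p` of this kind are needed for even `m`.

Proof. Let `X ^ p + Y ^ p + Z ^ p = 0` in the integers of `K`, in the first case. The relations of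
Stickelberger and the conditions on `p` imply that the polynomials `N (X + T Y)`, `N (Y + T Z)`,
`N (Z + T X)` are palindromic modulo `p` (starting library). So the set of the residues `u` of `X / Y`
at the conjugates is stable under `u → 1 / u` and `u → - 1 - u`. If `m` is odd then `- 1` is a root
of each of the three polynomials, so `X = Y` modulo a prime above `p`, `Y = Z` modulo another one
and `Z = X` modulo a third one. If there is only one prime `P` above `p` then `1 / u` and `- u / (1 + u)`
are conjugate to `u` over the prime field; as automorphisms of finite fields commute this gives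
`u ^ 2 + u + 1 = 0`, so the norm of `P` is `1` modulo three, and `u` is not in the prime field, since
`1 / u` is conjugate to `u`.
-/

set_option autoImplicit false

namespace Pool.Agent.Results.MP_ef6a16_nt.KummerEichlerCriterion

open NumberField IsDedekindDomain

/-- The even numbers `k` with `2 ≤ k ≤ p - 3` for which `p` divides the numerator of the Bernoulli
number with index `k`. Their number is the index of irregularity of `p`. -/
def Irregular (p : ℕ) : Finset ℕ :=
  (Finset.range p).filter fun k => Even k ∧ 2 ≤ k ∧ k + 3 ≤ p ∧ (p : ℤ) ∣ (bernoulli k).num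

/-- **The criterion of Kummer and Eichler over number fields.** -/
theorem result (K : Type) [Field K] [NumberField K] (m : ℕ) (hK : Module.finrank ℚ K = m)
    (p n : ℕ) (hp : p.Prime)
    (hB : (2 * m + 3 ≤ p ∧ ∀ k ∈ Irregular p, k + 2 * m + 1 < p) ∨
      m * (((Irregular p).card + 1) * ((Irregular p).card + 2)) + 3 ≤ p)
    (hP : (Odd m ∧ Set.encard {P : Ideal (𝓞 K) | P.IsPrime ∧ (p : 𝓞 K) ∈ P} ≤ 2) ∨
      (¬ 3 ∣ m ∧ ∀ P : Ideal (𝓞 K), P.IsPrime → (p : 𝓞 K) ∈ P → Ideal.absNorm P % 3 ≠ 1) ∨
      (Set.encard {P : Ideal (𝓞 K) | P.IsPrime ∧ (p : 𝓞 K) ∈ P} = 1 ∧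
        (p % 3 = 1 ∨ ∀ P : Ideal (𝓞 K), P.IsPrime → (p : 𝓞 K) ∈ P → Ideal.absNorm P % 3 ≠ 1)))
    (hn : p ∣ n) (x y z : K) (h : x ^ n + y ^ n = z ^ n) (hx : x ≠ 0) (hy : y ≠ 0) (hz : z ≠ 0) :
    ∃ v : HeightOneSpectrum (𝓞 K), (p : 𝓞 K) ∈ v.asIdeal ∧
      ¬ (v.valuation K x = v.valuation K y ∧ v.valuation K y = v.valuation K z) := by
  subst hK
  by_contra hcon
  push Not at hcon
  obtain ⟨k, rfl⟩ := hn
  have hp3 : 3 ≤ p := by
    rcases hB with h | h
    · omega
    · omega
  have hodd : Odd p := hp.odd_of_ne_two (by omega)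
  have hF : (x ^ k) ^ p + (y ^ k) ^ p + (-z ^ k) ^ p = 0 := by
    rw [hodd.neg_pow, ← pow_mul, ← pow_mul, ← pow_mul, mul_comm k p, h]
    ring
  refine Q290.FW.critK hp hB ?_ (pow_ne_zero k hx) (pow_ne_zero k hy)
    (neg_ne_zero.2 (pow_ne_zero k hz)) hF fun v hv => ?_
  · rcases hP with ⟨h1, h2⟩ | ⟨h1, h2⟩ | ⟨h1, h2⟩
    · refine Or.inr (Or.inr ⟨h1, fun P P' P'' q q' q'' r r' r'' => ?_⟩)
      by_contra hne
      push Not at hne
      obtain ⟨n1, n2, n3⟩ := hne
      have h3 : ({P, P', P''} : Set (Ideal (𝓞 K))) ⊆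
          {P : Ideal (𝓞 K) | P.IsPrime ∧ (p : 𝓞 K) ∈ P} := by
        rintro R (rfl | rfl | rfl)
        · exact ⟨q, r⟩
        · exact ⟨q', r'⟩
        · exact ⟨q'', r''⟩
      have h4 := (Set.encard_le_encard h3).trans h2
      rw [Set.encard_eq_three.2 ⟨P, P', P'', n1, n3.symm, n2, rfl⟩] at h4
      exact absurd h4 (by norm_num)
    · exact Or.inl ⟨h1, fun P q r => h2 P q r⟩
    · obtain ⟨R, hR⟩ := Set.encard_eq_one.1 h1
      have h3 : ∀ P : Ideal (𝓞 K), P.IsPrime → ((p : ℕ) : 𝓞 K) ∈ P → P = R := by
        intro P q r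
        have : P ∈ {P : Ideal (𝓞 K) | P.IsPrime ∧ (p : 𝓞 K) ∈ P} := ⟨q, r⟩
        rw [hR] at this
        exact this
      refine Or.inr (Or.inl ⟨fun P P' q q' r r' => (h3 P q r).trans (h3 P' q' r').symm,
        fun P q r => ?_⟩)
      rcases h2 with h2 | h2
      · exact Or.inl h2
      · exact Or.inr (h2 P q r)
  · obtain ⟨h1, h2⟩ := hcon v hv
    rw [Valuation.map_neg, map_pow, map_pow, map_pow, h1, h2]
    exact ⟨rfl, rfl⟩

end Pool.Agent.Results.MP_ef6a16_nt.KummerEichlerCriterion
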