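import Pool.Agent.Q146.SG.Ram
import Pool.Agent.Q146.SG.Cond

/-!
# Sophie Germain's theorem over number fields with a totally ramified auxiliary prime

Let `p > 1` be odd and `q` a prime such that `a ^ p + b ^ p + c ^ p = 0` has only solutions with
`a b c = 0` modulo `q` and such that `p` is not a `p`-th power modulo `q` (the conditions of Sophie
Germain). Then over every number field `K` of degree prime to `p` in which `q` is totally ramified
the first case of Fermat's Last Theorem holds for all exponents divisible by `p`. There is no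
condition on the class number and the units of `K`, nor on Bernoulli numbers.

The conditions hold for all odd `p ≥ 3` and `q = 2 p + 1` or `q = 4 p + 1` prime, and, for every `k`
prime to three, for all large `p` for which `q = 2 k p + 1` is prime.

Proof. In the first case the ideals of `y + z` and of `(y ^ p + z ^ p) / (y + z)` are `p`-th powers of
ideals up to the common divisor of `x, y, z`, so their norms are known modulo `p`-th powers. At a
totally ramified prime the norm of an integer is the `d`-th power of its residue, `d` the degree,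
modulo `q`; as `d` is prime to `p` this determines the classes of the residues modulo `p`-th powers,
and the classical argument can be carried out modulo `q`.
-/

set_option autoImplicit false

namespace Pool.Agent.Results.MP_ef6a16_nt.SophieGermainTotallyRamified

open NumberField IsDedekindDomain

/-- Sophie Germain's conditions for the auxiliary prime `q` -/
def Germain (p q : ℕ) [Fact q.Prime] : Prop :=
  (∀ a b c : ZMod q, a ^ p + b ^ p + c ^ p = 0 → a = 0 ∨ b = 0 ∨ c = 0) ∧
    ¬ ∃ t : ZMod q, t ^ p = (p : ZMod q)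

/-- `q` is totally ramified in `K`: the ideal `(q)` is the power of an ideal with exponent the
degree of `K` -/
def TotallyRamified (K : Type) [Field K] [NumberField K] (q : ℕ) : Prop :=
  ∃ Q : Ideal (𝓞 K), Q ^ Module.finrank ℚ K = Ideal.span {((q : ℕ) : 𝓞 K)}

/-- the first case of Fermat's Last Theorem over `K` for all exponents divisible by `p`: in every
solution of `x ^ n + y ^ n + z ^ n = 0` or of `x ^ n + y ^ n = z ^ n` with nonzero `x, y, z` the
valuations of `x, y, z` at some prime above `p` are not all equal -/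
def FirstCase (K : Type) [Field K] [NumberField K] (p : ℕ) : Prop :=
  ∀ n : ℕ, p ∣ n → ∀ x y z : K, x ≠ 0 → y ≠ 0 → z ≠ 0 →
    (x ^ n + y ^ n + z ^ n = 0 ∨ x ^ n + y ^ n = z ^ n) →
    ∃ v : HeightOneSpectrum (𝓞 K), ((p : ℕ) : 𝓞 K) ∈ v.asIdeal ∧
      ¬ (v.valuation K x = v.valuation K y ∧ v.valuation K y = v.valuation K z)

theorem core (K : Type) [Field K] [NumberField K] (p q : ℕ) [Fact q.Prime] (hp : Odd p)
    (hp1 : 1 < p) (hd : Nat.Coprime (Module.finrank ℚ K) p) (hQ : TotallyRamified K q)
    (hG : Germain p q) : FirstCase K p := by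
  intro n hn x y z hx hy hz h
  by_contra hcon
  push Not at hcon
  obtain ⟨k, rfl⟩ := hn
  obtain ⟨Q, hQ⟩ := hQ
  rcases h with h | h
  · have hF : (x ^ k) ^ p + (y ^ k) ^ p + (z ^ k) ^ p = 0 := by
      rw [← pow_mul, ← pow_mul, ← pow_mul, mul_comm k p, h]
    refine Pool.Agent.Q146.SG.main hp hp1 hd Q hQ hG.1 hG.2 (pow_ne_zero k hx) (pow_ne_zero k hy)
      (pow_ne_zero k hz) hF fun v hv => ?_
    obtain ⟨h1, h2⟩ := hcon v hv
    rw [map_pow, map_pow, map_pow, h1, h2]
    exact ⟨rfl, rfl⟩
  · have hF : (x ^ k) ^ p + (y ^ k) ^ p + (-z ^ k) ^ p = 0 := by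
      rw [hp.neg_pow, ← pow_mul, ← pow_mul, ← pow_mul, mul_comm k p, h]
      ring
    refine Pool.Agent.Q146.SG.main hp hp1 hd Q hQ hG.1 hG.2 (pow_ne_zero k hx) (pow_ne_zero k hy)
      (neg_ne_zero.2 (pow_ne_zero k hz)) hF fun v hv => ?_
    obtain ⟨h1, h2⟩ := hcon v hv
    rw [Valuation.map_neg, map_pow, map_pow, map_pow, h1, h2]
    exact ⟨rfl, rfl⟩

/-- **Sophie Germain's theorem over number fields with a totally ramified auxiliary prime.** -/
theorem result :
    -- the criterion
    (∀ (K : Type) [Field K] [NumberField K] (p q : ℕ) [Fact q.Prime], Odd p → 1 < p →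
      Nat.Coprime (Module.finrank ℚ K) p → TotallyRamified K q → Germain p q → FirstCase K p) ∧
    -- `q = 2 p + 1` or `q = 4 p + 1`
    (∀ p : ℕ, Odd p → 3 ≤ p → ∀ q : ℕ, q.Prime → (q = 2 * p + 1 ∨ q = 4 * p + 1) →
      ∀ (K : Type) [Field K] [NumberField K], Nat.Coprime (Module.finrank ℚ K) p →
        TotallyRamified K q → FirstCase K p) ∧
    -- `q = 2 k p + 1`
    (∀ k : ℕ, 1 ≤ k → ¬ 3 ∣ k → ∃ P : ℕ, ∀ p : ℕ, Odd p → P ≤ p → (2 * k * p + 1).Prime →
      ∀ (K : Type) [Field K] [NumberField K], Nat.Coprime (Module.finrank ℚ K) p →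
        TotallyRamified K (2 * k * p + 1) → FirstCase K p) := by
  refine ⟨?_, ?_, ?_⟩
  · intro K _ _ p q _ hp hp1 hd hQ hG
    exact core K p q hp hp1 hd hQ hG
  · intro p hp hp3 q hq hqp K _ _ hd hQ
    have : Fact q.Prime := ⟨hq⟩
    rcases hqp with h | h
    · exact core K p q hp (by omega) hd hQ (Pool.Agent.Q146.SG.conditions_one hp hp3 h)
    · exact core K p q hp (by omega) hd hQ (Pool.Agent.Q146.SG.conditions_two hp hp3 h)
  · intro k hk h3
    obtain ⟨P, hP⟩ := Pool.Agent.Q146.SG.conditions k hk h3
    refine ⟨P + 2, fun p hp hPp hq K _ _ hd hQ => ?_⟩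
    have : Fact (2 * k * p + 1).Prime := ⟨hq⟩
    exact core K p (2 * k * p + 1) hp (by omega) hd hQ (hP p hp (by omega) (2 * k * p + 1) rfl)

end Pool.Agent.Results.MP_ef6a16_nt.SophieGermainTotallyRamified
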