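import Pool.Agent.W7.FH.N2

/-!
# Fermat's equation over number fields: exponential height, or integral with respect to three points

Let `K` be any number field, `d` its degree, and let `q ≥ 2` be such that all prime ideals of `K` have
norm at least `q` (for `q = 2` this is no condition). Let `n ≥ 2` be an integer all of whose prime
divisors are at least `5`, `q ^ 2` and `2 d`. We show that every solution of `a ^ n + b ^ n + c ^ n = 0`
in nonzero elements of `K` either has height `H_K(a : b : c) ≥ q ^ n / 2 ^ d`, or is proportional to a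
solution `x, y, z` in algebraic integers for which all the three sums `x + y`, `y + z`, `z + x` are
units; that is, the point `(a : b : c)` is integral on the Fermat curve without the three points
`(1 : -1 : 0)`, `(0 : 1 : -1)`, `(-1 : 0 : 1)`.

In the second case the units `u = x + y`, `w = y + z` (and `z + x = 1`) satisfy
`1 + u + w = 2 (x + y + z)`. Hence over every field without units `u, w` such that `1 + u + w` is
divisible by `2` (for example if a prime ideal has norm `2`, or if the units are congruent to `1`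
modulo some prime ideal above `2`) all solutions have height at least `2 ^ (n - d)`. For
`1 + ω + ω ^ 2 = 0` the second case does occur.
-/

set_option autoImplicit false

namespace Pool.Agent.Results.MP_ef6a16_nt.UnitsOrExponentialHeight

open Pool.Agent.W7.FH NumberField IsDedekindDomain

lemma pow_bound' {q d l n : ℕ} (hl : q ^ 2 ≤ l) (hl4 : 4 ≤ l) (hd : 2 * d ≤ l) (hn : 1 ≤ n)
    (hln : l ∣ n) : q ^ n * n ^ d ≤ l ^ n := by
  obtain ⟨m, rfl⟩ := hln
  have hm : 1 ≤ m := by
    rcases Nat.eq_zero_or_pos m with rfl | h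
    · simp at hn
    · exact h
  have h1 : q ^ l * l ^ d ≤ l ^ l := by
    have h2 : l ^ l = l ^ (l - d) * l ^ d := by
      rw [← pow_add]
      congr 1
      omega
    rw [h2]
    apply Nat.mul_le_mul_right
    have h3 : (q ^ l) ^ 2 ≤ (l ^ (l - d)) ^ 2 := by
      calc (q ^ l) ^ 2 = (q ^ 2) ^ l := by rw [← pow_mul, ← pow_mul, mul_comm]
        _ ≤ l ^ l := Nat.pow_le_pow_left hl _
        _ ≤ l ^ ((l - d) * 2) := Nat.pow_le_pow_right (by omega) (by omega)
        _ = (l ^ (l - d)) ^ 2 := by rw [pow_mul]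
    exact (Nat.pow_le_pow_iff_left (by norm_num)).mp h3
  have h4 : l * m ≤ l ^ m := by
    clear h1 hn hd
    induction m with
    | zero => omega
    | succ k ih =>
      rcases Nat.eq_zero_or_pos k with rfl | hk
      · simp
      · have := ih hk
        have h5 : l * k * 2 ≤ l ^ k * l := Nat.mul_le_mul this (by omega)
        rw [pow_succ]
        nlinarith
  calc q ^ (l * m) * (l * m) ^ d ≤ q ^ (l * m) * (l ^ m) ^ d := by gcongr
    _ = (q ^ l * l ^ d) ^ m := by rw [mul_pow, ← pow_mul, ← pow_mul, ← pow_mul, mul_comm m d]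
    _ ≤ (l ^ l) ^ m := Nat.pow_le_pow_left h1 m
    _ = l ^ (l * m) := by rw [← pow_mul]

/-- Over every number field `K` of degree `d` all of whose prime ideals have norm at least `q`, and
for all `n ≥ 2` all of whose prime divisors are at least `5`, `q ^ 2` and `2 d`, every solution of
`a ^ n + b ^ n + c ^ n = 0` in nonzero elements of `K` has height at least `q ^ n / 2 ^ d`, or it is
proportional to a solution in integers of `K` for which the three sums of two of them are units
(one of the sums can be made equal to `1`). -/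
theorem result (K : Type) [Field K] [NumberField K] (q : ℕ) (hq2 : 2 ≤ q)
    (hq : ∀ P : Ideal (𝓞 K), P.IsPrime → P ≠ ⊥ → q ≤ Ideal.absNorm P) (n : ℕ) (hn : 2 ≤ n)
    (hp : ∀ p : ℕ, p.Prime → p ∣ n → 5 ≤ p ∧ q ^ 2 ≤ p ∧ 2 * Module.finrank ℚ K ≤ p)
    (a b c : K) (ha : a ≠ 0) (hb : b ≠ 0) (hc : c ≠ 0) (h : a ^ n + b ^ n + c ^ n = 0) :
    (q : ℝ) ^ n ≤ 2 ^ Module.finrank ℚ K * Height.mulHeight ![a, b, c] ∨
      ∃ (u w : (𝓞 K)ˣ) (x y z : 𝓞 K) (t : K), t ≠ 0 ∧ a = t * x ∧ b = t * y ∧ c = t * z ∧
        x + y = u ∧ y + z = w ∧ z + x = 1 := by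
  by_cases hcon : (q : ℝ) ^ n ≤ 2 ^ Module.finrank ℚ K * Height.mulHeight ![a, b, c]
  · exact Or.inl hcon
  right
  push Not at hcon
  have hd : 0 < Module.finrank ℚ K := Module.finrank_pos
  have hm : ∀ p : ℕ, p.Prime → p ∣ n → Module.finrank ℚ K + 1 < p := by
    intro p hpp hpn
    have := hp p hpp hpn
    omega
  have hmf : n.minFac.Prime := Nat.minFac_prime (by omega)
  have h5 := hp _ hmf (Nat.minFac_dvd n)
  have hnrm : ∀ v : FinitePlace K, q ≤ nrm v := fun v =>
    hq v.maximalIdeal.asIdeal v.maximalIdeal.isPrime v.maximalIdeal.ne_bot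
  have h1 := units_of_small hn hm ha hb hc h (Q := (q : ℝ) ^ n) (by positivity) (fun w => by
      apply pow_le_pow_left₀ (by positivity)
      exact_mod_cast hnrm w) (by
      have := pow_bound' (q := q) (d := Module.finrank ℚ K) (l := n.minFac) (n := n) h5.2.1
        (by omega) h5.2.2 (by omega) (Nat.minFac_dvd n)
      exact_mod_cast this) hcon
  have hodd : Odd n := odd_of_big hd hm
  have hs : c + a ≠ 0 := add_ne_zero_of_fermat hodd hb (by linear_combination h)
  have hab : a + b ≠ 0 := add_ne_zero_of_fermat hodd hc h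
  have hbc : b + c ≠ 0 := add_ne_zero_of_fermat hodd ha (by linear_combination h)
  -- integrality
  have hint : ∀ e : K, (∀ v : FinitePlace K, v e ≤ mx v a b c) → ∃ E : 𝓞 K, algebraMap (𝓞 K) K E = e / (c + a) := by
    intro e he
    have hi : IsIntegral ℤ (e / (c + a)) := isIntegral_of_le _ fun v => by
      rw [map_div₀, (h1 v).2.2]
      exact div_le_one_of_le₀ (he v) (by
        have := (h1 v).2.2
        rw [← this]
        exact apply_nonneg v _)
    exact ⟨⟨e / (c + a), hi⟩, rfl⟩
  have hinv : ∀ e : K, e ≠ 0 → (∀ v : FinitePlace K, v e = mx v a b c) →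
      ∃ E : (𝓞 K)ˣ, algebraMap (𝓞 K) K (E : 𝓞 K) = e / (c + a) := by
    intro e he0 he
    obtain ⟨E, hE⟩ := hint e fun v => (he v).le
    have hi : IsIntegral ℤ ((c + a) / e) := isIntegral_of_le _ fun v => by
      rw [map_div₀, (h1 v).2.2, he v]
      exact div_self_le_one _
    obtain ⟨F, hF⟩ : ∃ F : 𝓞 K, algebraMap (𝓞 K) K F = (c + a) / e := ⟨⟨(c + a) / e, hi⟩, rfl⟩
    have hEF : E * F = 1 := by
      apply FaithfulSMul.algebraMap_injective (𝓞 K) K
      rw [map_mul, map_one, hE, hF]
      field_simp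
    exact ⟨⟨E, F, hEF, by rw [mul_comm]; exact hEF⟩, hE⟩
  obtain ⟨x, hx⟩ := hint a fun v => (le_max_left _ _).trans (le_max_left _ _)
  obtain ⟨y, hy⟩ := hint b fun v => (le_max_right _ _).trans (le_max_left _ _)
  obtain ⟨z, hz⟩ := hint c fun v => le_max_right _ _
  obtain ⟨u, hu⟩ := hinv (a + b) hab fun v => (h1 v).1
  obtain ⟨w, hw⟩ := hinv (b + c) hbc fun v => (h1 v).2.1
  refine ⟨u, w, x, y, z, c + a, hs, ?_, ?_, ?_, ?_, ?_, ?_⟩
  · change a = (c + a) * algebraMap (𝓞 K) K x
    rw [hx]; field_simp
  · change b = (c + a) * algebraMap (𝓞 K) K y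
    rw [hy]; field_simp
  · change c = (c + a) * algebraMap (𝓞 K) K z
    rw [hz]; field_simp
  · apply FaithfulSMul.algebraMap_injective (𝓞 K) K
    rw [map_add, hx, hy, hu]
    field_simp
  · apply FaithfulSMul.algebraMap_injective (𝓞 K) K
    rw [map_add, hy, hz, hw]
    field_simp
  · apply FaithfulSMul.algebraMap_injective (𝓞 K) K
    rw [map_add, hz, hx, map_one]
    field_simp

end Pool.Agent.Results.MP_ef6a16_nt.UnitsOrExponentialHeight
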